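import Pool.Agent.N112.WM.Stm2
set_option autoImplicit false

/-! # Project WM, leaf WM6: the entropic pair of subgroups, modulus `m` -/

open scoped Classical
set_option linter.unusedSectionVars false
set_option linter.unusedVariables false

namespace Pool.Agent.N861.WM.PairM

open H137.PFR H137.TwoPow H137.Weak N149.Tow

variable {Ω : Type*} [Fintype Ω] {G : Type*} [AddCommGroup G] {w : Ω → ℝ}

theorem ccm (hw : Law w) (X : Ω → G) (m : ℕ) {N M : AddSubgroup G} (h : N ≤ M) :
    0 ≤ cc m * (kk w X N - kk w X M) :=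
  mul_nonneg (cc_pos m).le (sub_nonneg.2 (kk_anti hw X h))

section pair

variable {N M : AddSubgroup G}

/-- downward iteration -/
theorem iter_down_m (hw : Law w) (X : Ω → G) (m : ℕ) (hm : 0 < m) (h2 : ∀ x ∈ M, m • x ∈ N)
    (n : ℕ) :
    ∀ M' : AddSubgroup G, N ≤ M' → M' ≤ M → N.relIndex M' ≠ 0 → N.relIndex M' ≤ n →
      ∃ P : AddSubgroup G, N ≤ P ∧ P ≤ M' ∧
        Real.log (N.relIndex P) + hh w X P - hh w X N ≤ 2 * cc m * (kk w X N - kk w X P) ∧
        hh w X P - hh w X M' ≤ Real.log (N.relIndex M') + hh w X M' - hh w X N ∧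
        hh w X P - hh w X M' ≤ cc m * (kk w X N - kk w X M') := by
  induction n with
  | zero =>
    intro M' _ _ h0 hn
    exact absurd (Nat.le_zero.1 hn) h0
  | succ n ih =>
    intro M' hN hM h0 hn
    have hlog := hh_le_add_log hw X hN h0
    have hk := ccm hw X m hN
    by_cases hcase : Real.log (N.relIndex M') + hh w X M' - hh w X N ≤
        2 * cc m * (kk w X N - kk w X M')
    · exact ⟨M', hN, le_refl _, hcase, by linarith, by linarith⟩
    · push Not at hcase
      obtain ⟨M'', hN'', hM'', -, hst⟩ := layer hw X hN m hm (fun x hx => h2 x (hM hx))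
      have hne : M'' ≠ M' := by
        rintro rfl
        linarith
      have hmul := AddSubgroup.relIndex_mul_relIndex N M'' M' hN'' hM''
      have h0'' : N.relIndex M'' ≠ 0 := by
        intro h
        rw [h, zero_mul] at hmul
        exact h0 hmul.symm
      have h1 : M''.relIndex M' ≠ 1 := by
        intro h
        rw [AddSubgroup.relIndex_eq_one] at h
        exact hne (le_antisymm hM'' h)
      have h1' : M''.relIndex M' ≠ 0 := by
        intro h
        rw [h, mul_zero] at hmul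
        exact h0 hmul.symm
      have hlt : N.relIndex M'' ≤ n := by
        have h3 : 2 ≤ M''.relIndex M' := by omega
        have h4 : N.relIndex M'' * 2 ≤ N.relIndex M' := by
          rw [← hmul]
          exact Nat.mul_le_mul_left _ h3
        have h5 : 0 < N.relIndex M'' := Nat.pos_of_ne_zero h0''
        omega
      obtain ⟨P, hP1, hP2, hP3, hP4, hP5⟩ := ih M'' hN'' (hM''.trans hM) h0'' hlt
      have hk2 := ccm hw X m hM''
      refine ⟨P, hP1, hP2.trans hM'', hP3, ?_, ?_⟩ <;> linarith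

/-- upward iteration -/
theorem iter_up_m (hw : Law w) (X : Ω → G) (m : ℕ) (hm : 0 < m) (h2 : ∀ x ∈ M, m • x ∈ N)
    (n : ℕ) :
    ∀ N' : AddSubgroup G, N ≤ N' → N' ≤ M → N'.relIndex M ≠ 0 → N'.relIndex M ≤ n →
      ∃ P : AddSubgroup G, N' ≤ P ∧ P ≤ M ∧
        hh w X P - hh w X M ≤ 2 * cc m * (kk w X P - kk w X M) ∧
        Real.log (N'.relIndex P) ≤ 3 / 2 * (hh w X N' - hh w X M) := by
  induction n with
  | zero =>
    intro N' _ _ h0 hn
    exact absurd (Nat.le_zero.1 hn) h0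
  | succ n ih =>
    intro N' hN hM h0 hn
    have hanti := hh_anti hw X hM
    by_cases hcase : hh w X N' - hh w X M ≤ 2 * cc m * (kk w X N' - kk w X M)
    · refine ⟨N', le_refl _, hM, hcase, ?_⟩
      rw [AddSubgroup.relIndex_self, Nat.cast_one, Real.log_one]
      linarith
    · push Not at hcase
      obtain ⟨N'', hN'', hM'', -, hst⟩ := layer hw X hM m hm (fun x hx => hN (h2 x hx))
      have hne : N'' ≠ N' := by
        rintro rfl
        rw [AddSubgroup.relIndex_self, Nat.cast_one, Real.log_one] at hst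
        linarith
      have hmul := AddSubgroup.relIndex_mul_relIndex N' N'' M hN'' hM''
      have h0a : N'.relIndex N'' ≠ 0 := by
        intro h
        rw [h, zero_mul] at hmul
        exact h0 hmul.symm
      have h0b : N''.relIndex M ≠ 0 := by
        intro h
        rw [h, mul_zero] at hmul
        exact h0 hmul.symm
      have h1 : N'.relIndex N'' ≠ 1 := by
        intro h
        rw [AddSubgroup.relIndex_eq_one] at h
        exact hne (le_antisymm h hN'')
      have hlt : N''.relIndex M ≤ n := by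
        have h3 : 2 ≤ N'.relIndex N'' := by omega
        have h4 : 2 * N''.relIndex M ≤ N'.relIndex M := by
          rw [← hmul]
          exact Nat.mul_le_mul_right _ h3
        have h5 : 0 < N''.relIndex M := Nat.pos_of_ne_zero h0b
        omega
      obtain ⟨P, hP1, hP2, hP3, hP4⟩ := ih N'' (hN.trans hN'') hM'' h0b hlt
      have hmul2 := AddSubgroup.relIndex_mul_relIndex N' N'' P hN'' hP1
      have h0c : N''.relIndex P ≠ 0 := by
        intro h
        have h6 := AddSubgroup.relIndex_mul_relIndex N'' P M hP1 hP2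
        rw [h, zero_mul] at h6
        exact h0b h6.symm
      have hanti2 := hh_anti hw X hM''
      refine ⟨P, hN''.trans hP1, hP2, hP3, ?_⟩
      rw [← hmul2, Nat.cast_mul, Real.log_mul (by exact_mod_cast h0a) (by exact_mod_cast h0c)]
      linarith

end pair

/-- comparison of the entropy modulo `m M` with the entropy modulo the `m`-torsion -/
theorem m_compare (hw : Law w) (X : Ω → G) (m : ℕ) (P M : AddSubgroup G) (hPM : P ≤ M) :
    hh w X (P ⊔ M.map (nsmulAddMonoidHom (α := G) m)) +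
      hh w X (M ⊓ P.comap (nsmulAddMonoidHom (α := G) m)) ≤
      hh w X P + hh w X M + 5 * dg m * kk w X P := by
  have hl := law_prod hw hw
  set f : G →+ G := nsmulAddMonoidHom (α := G) m with hf
  have hfa : ∀ x, f x = m • x := fun x => rfl
  have s1 : Hg (prod w w) (fun p => ((X p.1 : G ⧸ P), (m • (X p.2 : G ⧸ P),
        (X p.2 : G ⧸ M)))) +
      Hg (prod w w) (fun p => (X p.1 : G ⧸ (P ⊔ M.map f))) ≤
      Hg (prod w w) (fun p => ((X p.1 : G ⧸ P) - m • (X p.2 : G ⧸ P),
        (X p.2 : G ⧸ M))) +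
      Hg (prod w w) (fun p => (X p.1 : G ⧸ P)) := by
    refine Hg_sub_of hl ?_ ?_ ?_
    · intro p q h
      simp only [Prod.mk.injEq] at h
      obtain ⟨h1, h2⟩ := h
      rw [QuotientAddGroup.eq] at h2
      have h3 : ((X p.1 - m • X p.2 : G) : G ⧸ P) = ((X q.1 - m • X q.2 : G)) := h1
      rw [QuotientAddGroup.eq] at h3
      rw [QuotientAddGroup.eq]
      have h4 : f (-X p.2 + X q.2) ∈ M.map f := AddSubgroup.mem_map_of_mem _ h2
      rw [hfa, smul_add, smul_neg] at h4
      have h5 : -X p.1 + X q.1 = (-(X p.1 - m • X p.2) + (X q.1 - m • X q.2)) +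
          (-(m • X p.2) + m • X q.2) := by abel
      rw [h5]
      exact AddSubgroup.add_mem_sup h3 h4
    · intro p q h
      rw [QuotientAddGroup.eq] at h ⊢
      exact AddSubgroup.mem_sup_left h
    · intro p q h3 h4
      simp only [Prod.mk.injEq] at h3 ⊢
      obtain ⟨h5, h6⟩ := h3
      rw [h4] at h5
      exact ⟨h4, sub_right_inj.1 h5, h6⟩
  have s2 := Hg_add_of hl
    (X := fun p : Ω × Ω => (X p.1 : G ⧸ P) - m • (X p.2 : G ⧸ P))
    (Y := fun p : Ω × Ω => (X p.2 : G ⧸ M))
    (W := fun p : Ω × Ω => ((X p.1 : G ⧸ P) - m • (X p.2 : G ⧸ P),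
        (X p.2 : G ⧸ M))) (fun p q h3 h4 => Prod.ext h3 h4)
  have s3 : Hg (prod w w) (fun p => (X p.1 : G ⧸ P) - m • (X p.2 : G ⧸ P)) ≤
      hh w X P + 5 * dg m * kk w X P := dil hw (fun ω => (X ω : G ⧸ P)) m
  have s4 : Hg (prod w w) (fun p => (X p.2 : G ⧸ M)) = hh w X M :=
    Hg_snd hw hw (fun ω => (X ω : G ⧸ M))
  have s5 : Hg (prod w w) (fun p => (X p.1 : G ⧸ P)) = hh w X P :=
    Hg_fst hw hw (fun ω => (X ω : G ⧸ P))
  have s6 : Hg (prod w w) (fun p => (X p.1 : G ⧸ (P ⊔ M.map f))) =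
      hh w X (P ⊔ M.map f) :=
    Hg_fst hw hw (fun ω => (X ω : G ⧸ (P ⊔ M.map f)))
  have s7 : Hg (prod w w) (fun p => ((X p.1 : G ⧸ P), (m • (X p.2 : G ⧸ P),
        (X p.2 : G ⧸ M)))) = hh w X P + hh w X (M ⊓ P.comap f) := by
    rw [Hg_prod hw hw (fun ω => (X ω : G ⧸ P))
      (fun ω => (m • (X ω : G ⧸ P), (X ω : G ⧸ M)))]
    congr 1
    refine Hg_congr fun ω ω' => ?_
    rw [QuotientAddGroup.eq, AddSubgroup.mem_inf, AddSubgroup.mem_comap, hfa,
      Prod.mk.injEq]
    have h1 : (m • (X ω : G ⧸ P) = m • (X ω' : G ⧸ P)) ↔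
        -(m • X ω) + m • X ω' ∈ P := by
      rw [← QuotientAddGroup.eq]
      rfl
    rw [h1, QuotientAddGroup.eq, smul_add, smul_neg]
    exact and_comm
  rw [s7, s6] at s1
  rw [s4] at s2
  rw [s5] at s1
  linarith

/-- minimal good subgroup -/
theorem exists_min_good_m (hw : Law w) (X : Ω → G) (m : ℕ) :
    ∃ M : AddSubgroup G, M.FG ∧ hh w X M ≤ 2 * cc m * kk w X M ∧
      ∀ L ≤ M, hh w X L ≤ 2 * cc m * kk w X L → L = M := by
  set S : Set ℕ := {n | ∃ L : AddSubgroup G, hh w X L ≤ 2 * cc m * kk w X L ∧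
    ((diffs X).filter (fun x => x ∈ L)).card = n} with hS
  have hne : S.Nonempty := by
    refine ⟨_, ⊤, ?_, rfl⟩
    have h1 : hh w X ⊤ = 0 := Hg_const hw _ (fun ω ω' => by
      rw [QuotientAddGroup.eq]
      exact AddSubgroup.mem_top _)
    have h2 := mul_nonneg (cc_pos m).le (kk_nonneg hw X ⊤)
    rw [h1]
    linarith
  obtain ⟨L, hL, hLn⟩ := Nat.sInf_mem hne
  refine ⟨red X L, red_fg X L, ?_, ?_⟩
  · rw [hh_red]
    have := ccm hw X m (red_le X L)
    linarith
  · intro L' hL' hgood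
    have h1 : sInf S ≤ ((diffs X).filter (fun x => x ∈ L')).card := Nat.sInf_le ⟨L', hgood, rfl⟩
    rw [← hLn] at h1
    have hsub : (diffs X).filter (fun x => x ∈ L') ⊆ (diffs X).filter (fun x => x ∈ L) := by
      intro x hx
      rw [Finset.mem_filter] at hx ⊢
      exact ⟨hx.1, red_le X L (hL' hx.2)⟩
    have heq := Finset.eq_of_subset_of_card_le hsub h1
    refine le_antisymm hL' ?_
    unfold red
    rw [← heq, AddSubgroup.closure_le]
    intro x hx
    exact (Finset.mem_filter.1 (Finset.mem_coe.1 hx)).2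

/-- **The pair of subgroups.** -/
theorem exists_pair_m (hw : Law w) (X : Ω → G) (m : ℕ) (hm2 : 2 ≤ m) :
    ∃ M P : AddSubgroup G, P ≤ M ∧ M.FG ∧ Finite P ∧ (∀ x ∈ P, ∃ k : ℕ, (m ^ k) • x = 0) ∧
      hh w X M ≤ 2 * cc m * kap w X ∧
      Real.log (Nat.card P) + hh w X P ≤ Hg w X + 2 * cc m * kap w X ∧
      (P ⊔ M.map (nsmulAddMonoidHom (α := G) m)).relIndex M ≠ 0 ∧
      Real.log ((P ⊔ M.map (nsmulAddMonoidHom (α := G) m)).relIndex M) ≤
        2 * cc m * kap w X := by
  have hm : 0 < m := by omega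
  have hcc := cc_pos m
  set f : G →+ G := nsmulAddMonoidHom (α := G) m with hf
  have hfa : ∀ x, f x = m • x := fun x => rfl
  obtain ⟨M, hMfg, hMgood, hMmin⟩ := exists_min_good_m hw X m
  -- maximal `P`
  set S : Set ℕ := {n | ∃ P : AddSubgroup G, P ≤ M ∧ Finite P ∧
    (∀ x ∈ P, ∃ k : ℕ, (m ^ k) • x = 0) ∧
    Real.log (Nat.card P) + hh w X P ≤ Hg w X + 2 * cc m * (kap w X - kk w X P) ∧
    Nat.card P = n} with hS
  have hne : S.Nonempty := by
    refine ⟨_, ⊥, bot_le, inferInstance, ?_, ?_, rfl⟩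
    · intro x hx
      rw [AddSubgroup.mem_bot] at hx
      exact ⟨0, by rw [hx, smul_zero]⟩
    · rw [hh_bot, kk_bot, AddSubgroup.card_bot, Nat.cast_one, Real.log_one]
      linarith
  have hbdd : BddAbove S := by
    refine ⟨⌊Real.exp (Hg w X + 2 * cc m * kap w X)⌋₊, ?_⟩
    rintro n ⟨P, hP1, hP2, hP3, hP4, rfl⟩
    have hpos : (0 : ℝ) < Nat.card P := by exact_mod_cast Nat.card_pos
    apply Nat.le_floor
    rw [← Real.log_le_iff_le_exp hpos]
    have h1 := hh_nonneg hw X P
    have h2 := mul_nonneg hcc.le (kk_nonneg hw X P)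
    linarith
  obtain ⟨P, hPM, hPfin, hPtor, hPb, hPn⟩ := Nat.sSup_mem hne hbdd
  have hPmax : ∀ P' : AddSubgroup G, P' ≤ M → Finite P' →
      (∀ x ∈ P', ∃ k : ℕ, (m ^ k) • x = 0) →
      Real.log (Nat.card P') + hh w X P' ≤ Hg w X + 2 * cc m * (kap w X - kk w X P') →
      Nat.card P' ≤ Nat.card P := by
    intro P' h1 h2 h3 h4
    rw [hPn]
    exact le_csSup hbdd ⟨P', h1, h2, h3, h4, rfl⟩
  -- the `m`-torsion modulo `P`
  set T := M ⊓ P.comap f with hT
  have hTle : T ≤ M := inf_le_left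
  have hTdbl : ∀ x ∈ T, m • x ∈ P := fun x hx => (AddSubgroup.mem_inf.1 hx).2
  set T' := P ⊔ red X T with hT'
  have hPT : P ≤ T := by
    intro x hx
    exact AddSubgroup.mem_inf.2 ⟨hPM hx, P.nsmul_mem hx m⟩
  have hT'T : T' ≤ T := sup_le hPT (red_le X T)
  have hT'fg : T'.FG := by
    have hPfg : P.FG := by
      rw [← AddGroup.fg_iff_addSubgroup_fg]
      exact AddGroup.fg_of_finite
    exact hPfg.sup (red_fg X T)
  have hhT' : hh w X T' = hh w X T := by
    refine le_antisymm ?_ (hh_anti hw X hT'T)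
    rw [← hh_red X T]
    exact hh_anti hw X le_sup_right
  have hT'2 : ∀ x ∈ T', m • x ∈ P := fun x hx => hTdbl x (hT'T hx)
  have hT'ne := relIndex_ne_zero_m hT'fg m hm hT'2
  obtain ⟨Q, hQ1, hQ2, hQ3, hQ4, hQ5⟩ := iter_down_m hw X m hm hT'2 (P.relIndex T') T'
    le_sup_left (le_refl _) hT'ne (le_refl _)
  have hQcard : Nat.card P * P.relIndex Q = Nat.card Q := by
    have h1 := AddSubgroup.relIndex_mul_relIndex ⊥ P Q bot_le hQ1
    rw [AddSubgroup.relIndex_bot_left, AddSubgroup.relIndex_bot_left] at h1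
    exact h1
  have hrne : P.relIndex Q ≠ 0 := by
    intro h
    have h1 := AddSubgroup.relIndex_mul_relIndex P Q T' hQ1 hQ2
    rw [h, zero_mul] at h1
    exact hT'ne h1.symm
  have hPpos : 0 < Nat.card P := Nat.card_pos
  have hQfin : Finite Q := Nat.finite_of_card_ne_zero (by
    rw [← hQcard]
    exact mul_ne_zero hPpos.ne' hrne)
  have hQle := hPmax Q ((hQ2.trans hT'T).trans hTle) hQfin (by
    intro x hx
    obtain ⟨k, hk⟩ := hPtor _ (hT'2 x (hQ2 hx))
    refine ⟨k + 1, ?_⟩
    rw [pow_succ, mul_smul]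
    exact hk) (by
    have h1 : Real.log (Nat.card Q) = Real.log (Nat.card P) + Real.log (P.relIndex Q) := by
      rw [← hQcard, Nat.cast_mul, Real.log_mul (by exact_mod_cast hPpos.ne')
        (by exact_mod_cast hrne)]
    rw [h1]
    linarith)
  have hQP : Q = P := by
    have h1 : P.relIndex Q = 1 := by
      rw [← hQcard] at hQle
      have h2 : P.relIndex Q ≤ 1 := by
        by_contra h
        push Not at h
        have : Nat.card P * 2 ≤ Nat.card P * P.relIndex Q := Nat.mul_le_mul_left _ h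
        omega
      omega
    rw [AddSubgroup.relIndex_eq_one] at h1
    exact le_antisymm h1 hQ1
  rw [hQP, hhT'] at hQ5
  -- the quotient by `m M`
  have hNM : P ⊔ M.map f ≤ M := by
    refine sup_le hPM ?_
    intro x hx
    obtain ⟨y, hy, rfl⟩ := AddSubgroup.mem_map.1 hx
    exact M.nsmul_mem hy m
  have hN2 : ∀ x ∈ M, m • x ∈ P ⊔ M.map f := fun x hx =>
    AddSubgroup.mem_sup_right (AddSubgroup.mem_map_of_mem f hx)
  have hNne := relIndex_ne_zero_m hMfg m hm hN2
  obtain ⟨R, hR1, hR2, hR3, hR4⟩ := iter_up_m hw X m hm hN2 ((P ⊔ M.map f).relIndex M)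
    (P ⊔ M.map f) (le_refl _) hNM hNne (le_refl _)
  have hRM : R = M := hMmin R hR2 (by linarith)
  rw [hRM] at hR4
  have hcmp := m_compare hw X m P M hPM
  have hkP := mul_le_mul_of_nonneg_left (kk_le hw X P) hcc.le
  have hkM := mul_le_mul_of_nonneg_left (kk_le hw X M) hcc.le
  have hkP0 := mul_nonneg hcc.le (kk_nonneg hw X P)
  have hkT0 := mul_nonneg hcc.le (kk_nonneg hw X T')
  have hdg : (0 : ℝ) ≤ dg m := zero_le_one.trans (one_le_dg m)
  have hk0 := mul_nonneg hdg (kap_nonneg hw X)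
  have hdP := mul_le_mul_of_nonneg_left (kk_le hw X P) hdg
  refine ⟨M, P, hPM, hMfg, hPfin, hPtor, by linarith, by linarith, hNne, ?_⟩
  rw [← hT] at hcmp
  have hccd : cc m = 246026 * dg m := rfl
  rw [hccd] at hQ5 hkT0 ⊢
  linarith

universe u

/-- **WM6.** -/
theorem pairM : Pool.Agent.N112.WM.StmPairM.{u} := by
  intro Ω _ G _ w X m hw hm
  exact exists_pair_m hw X m hm

end Pool.Agent.N861.WM.PairM
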